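import Pool.Agent.S00790

/-!
# A right chain ring, algebraic over a central field, which is not left distributive

`IsRightIdeal I`, `IsLeftIdeal I`: the additive subgroup `I` is a right (left) ideal.
`RightDistributive A`, `LeftDistributive A`: the lattice of right (left) ideals is distributive.
`IntegralOverCenter A`: every element is a root of a monic polynomial with coefficients in the centre.
-/

set_option autoImplicit false

namespace Pool.Agent.Results.MP_145108_al.RightChainRing

open Pool.Agent.S00790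

/-- the additive subgroup `I` is a right ideal -/
def IsRightIdeal {A : Type} [Ring A] (I : AddSubgroup A) : Prop := ∀ x ∈ I, ∀ r : A, x * r ∈ I

/-- the additive subgroup `I` is a left ideal -/
def IsLeftIdeal {A : Type} [Ring A] (I : AddSubgroup A) : Prop := ∀ x ∈ I, ∀ r : A, r * x ∈ I

/-- the lattice of right ideals is distributive (`⊓` is the intersection, `⊔` the sum) -/
def RightDistributive (A : Type) [Ring A] : Prop :=
  ∀ X Y Z : AddSubgroup A, IsRightIdeal X → IsRightIdeal Y → IsRightIdeal Z →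
    X ⊓ (Y ⊔ Z) = (X ⊓ Y) ⊔ (X ⊓ Z)

/-- the lattice of left ideals is distributive -/
def LeftDistributive (A : Type) [Ring A] : Prop :=
  ∀ X Y Z : AddSubgroup A, IsLeftIdeal X → IsLeftIdeal Y → IsLeftIdeal Z →
    X ⊓ (Y ⊔ Z) = (X ⊓ Y) ⊔ (X ⊓ Z)

/-- any two right ideals are comparable -/
def RightChain (A : Type) [Ring A] : Prop :=
  ∀ X Y : AddSubgroup A, IsRightIdeal X → IsRightIdeal Y → X ≤ Y ∨ Y ≤ X

/-- every element `a` satisfies `a ^ n + c_(n-1) a ^ (n-1) + ... + c_0 = 0` with `n ≥ 1` and central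
coefficients `c_i` -/
def IntegralOverCenter (A : Type) [Ring A] : Prop :=
  ∀ a : A, ∃ (n : ℕ) (c : ℕ → A), 1 ≤ n ∧ (∀ i, ∀ b : A, c i * b = b * c i) ∧
    a ^ n + ∑ i ∈ Finset.range n, c i * a ^ i = 0

private theorem rchain : RightChain (triv sg) := by
  intro X Y hX hY
  by_contra hcon
  push Not at hcon
  obtain ⟨h1, h2⟩ := hcon
  rw [SetLike.not_le_iff_exists] at h1 h2
  obtain ⟨x, hxI, hxJ⟩ := h1
  obtain ⟨y, hyJ, hyI⟩ := h2
  rcases right_chain (fun d hd => (exists_inv d hd).1) x y with ⟨r, hr⟩ | ⟨r, hr⟩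
  · apply hyI
    rw [hr]
    exact hX x hxI r
  · apply hxJ
    rw [hr]
    exact hY y hyJ r

private theorem rdist {A : Type} [Ring A] (h : RightChain A) : RightDistributive A := by
  intro X Y Z _ hY hZ
  rcases h Y Z hY hZ with h | h
  · rw [sup_eq_right.mpr h, sup_eq_right.mpr (inf_le_inf_left X h)]
  · rw [sup_eq_left.mpr h, sup_eq_left.mpr (inf_le_inf_left X h)]

private theorem notleft : ¬ LeftDistributive (triv sg) := by
  intro h
  refine not_distrib_left (σ := sg) (fun d hd => (exists_inv d hd).2) _ (not_mem_range dd_succ) ?_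
  intro a b c
  have hl : ∀ s : Submodule (triv sg) (triv sg), IsLeftIdeal s.toAddSubgroup := by
    intro s x hx r
    exact s.smul_mem r hx
  have key := h a.toAddSubgroup b.toAddSubgroup c.toAddSubgroup (hl a) (hl b) (hl c)
  have hsup : ∀ (s t : Submodule (triv sg) (triv sg)) (x : triv sg),
      x ∈ s ⊔ t ↔ x ∈ s.toAddSubgroup ⊔ t.toAddSubgroup := by
    intro s t x
    rw [Submodule.mem_sup, AddSubgroup.mem_sup]
    rfl
  ext x
  have e1 : x ∈ b ⊔ c ↔ x ∈ b.toAddSubgroup ⊔ c.toAddSubgroup := hsup b c x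
  have h2 : x ∈ a.toAddSubgroup ⊓ (b.toAddSubgroup ⊔ c.toAddSubgroup) ↔
      x ∈ (a.toAddSubgroup ⊓ b.toAddSubgroup) ⊔ (a.toAddSubgroup ⊓ c.toAddSubgroup) := by
    rw [key]
  have h3 : x ∈ (a ⊓ b) ⊔ (a ⊓ c) ↔
      x ∈ (a.toAddSubgroup ⊓ b.toAddSubgroup) ⊔ (a.toAddSubgroup ⊓ c.toAddSubgroup) :=
    hsup (a ⊓ b) (a ⊓ c) x
  refine ⟨fun hx => h3.2 (h2.1 ⟨hx.1, e1.1 hx.2⟩), fun hx => ?_⟩
  have h4 := h2.2 (h3.1 hx)
  exact ⟨h4.1, e1.2 h4.2⟩

private theorem isUnit_of_fs (x : triv sg) (hx : fs x ≠ 0) : IsUnit x := by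
  have hr : ∀ y : triv sg, fs y ≠ 0 → ∃ z, y * z = 1 := by
    intro y hy
    rcases right_chain (fun d hd => (exists_inv d hd).1) y 1 with ⟨r, hr⟩ | ⟨r, hr⟩
    · exact ⟨r, hr.symm⟩
    · obtain ⟨e, he⟩ := (exists_inv _ hy).1
      refine ⟨mk e (-(sg e * (sn y * e))), ?_⟩
      apply ext'
      · simp [he]
      · have : sg (fs y) * sg e = 1 := by rw [← map_mul, he, map_one]
        simp only [sn_mul, sn_mk, fs_mk, mul_neg, sn_one]
        rw [← mul_assoc, this]
        simp
  obtain ⟨z, hz⟩ := hr x hx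
  have hz0 : fs z ≠ 0 := by
    intro h0
    have h1 : fs (x * z) = 1 := by rw [hz, fs_one]
    rw [fs_mul, h0, mul_zero] at h1
    exact zero_ne_one h1
  obtain ⟨t, ht⟩ := hr z hz0
  have hxt : x = t := by
    calc x = x * (z * t) := by rw [ht, mul_one]
      _ = t := by rw [← mul_assoc, hz, one_mul]
  exact ⟨⟨x, z, hz, by rw [hxt, ht]⟩, rfl⟩

private theorem intc : IntegralOverCenter (triv sg) := by
  intro a
  obtain ⟨p, hp, hpa⟩ := integral_triv a
  rcases Nat.eq_zero_or_pos p.natDegree with h0 | h0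
  · exfalso
    have h1 : p = 1 := Polynomial.eq_one_of_monic_natDegree_zero hp h0
    rw [h1, Polynomial.eval₂_one] at hpa
    have h2 : fs (1 : triv sg) = fs (0 : triv sg) := by rw [hpa]
    rw [fs_one, fs_zero] at h2
    exact one_ne_zero h2
  · refine ⟨p.natDegree, fun i => algebraMap FF (triv sg) (p.coeff i), h0, fun i b =>
      Algebra.commutes (p.coeff i) b, ?_⟩
    rw [Polynomial.eval₂_eq_sum_range, Finset.sum_range_succ, hp.coeff_natDegree, map_one,
      one_mul, add_comm] at hpa
    exact hpa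

/-- There are a field `F` and an algebraic `F`-algebra `A` whose right ideals are totally ordered by
inclusion and in which the product of any two non-units is zero, such that `A` is right distributive and
integral over its centre but not left distributive. -/
theorem result : ∃ (F A : Type) (_ : Field F) (_ : Ring A) (_ : Algebra F A),
    (∀ x : A, IsIntegral F x) ∧ (∀ x y : A, ¬ IsUnit x → ¬ IsUnit y → x * y = 0) ∧
    RightChain A ∧ RightDistributive A ∧ IntegralOverCenter A ∧ ¬ LeftDistributive A := by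
  refine ⟨FF, triv sg, inferInstance, inferInstance, inferInstance, fun x => integral_triv x,
    fun x y hx hy => ?_, rchain, rdist rchain, intc, notleft⟩
  have hx0 : fs x = 0 := by
    by_contra h
    exact hx (isUnit_of_fs x h)
  have hy0 : fs y = 0 := by
    by_contra h
    exact hy (isUnit_of_fs y h)
  apply ext'
  · simp [hx0]
  · simp [hx0, hy0]

end Pool.Agent.Results.MP_145108_al.RightChainRing
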